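import Mathlib
import Pool.Agent.Helper941.Dim.Final
import Pool.Agent.Y670.HC.Main

set_option autoImplicit false
set_option maxHeartbeats 400000

/-!
Structures of computable dimension two attached to arbitrary computable trees.
-/

namespace Pool.Agent.Y670.HD

open Encodable Denumerable Nat.Partrec Pool.Agent.Helper941 Pool.Agent.Helper941.IsoProb
open Pool.Agent.Helper941.Zeta Pool.Agent.Helper941.Hyp Pool.Agent.Helper941.Dim
open Pool.Agent.Y542 Pool.Agent.Y670.HC

/-! ### the tree of labels -/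

/-- the sequence coded by the node `j` in natural order -/
def fl (j : ℕ) : List ℕ := (List.range (len j)).map fun i => dig j i

def LT (T0 : List ℕ → Prop) (j : ℕ) : Prop := T0 (fl j)

theorem fl_zero : fl 0 = [] := by
  unfold fl
  rw [len_zero]
  rfl

theorem fl_length (j : ℕ) : (fl j).length = len j := by simp [fl]

theorem fl_prn {j : ℕ} (hj : 1 ≤ j) : fl (prn j) = tk (fl j) (len j - 1) := by
  have h1 := len_prn hj
  have h2 : len (prn j) = len j - 1 := by omega
  unfold fl tk
  rw [h2]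
  refine List.map_congr_left fun i hi => ?_
  have hi' : i < len j - 1 := List.mem_range.1 hi
  rw [gt_range (fun i => dig j i) (by omega)]
  exact dig_prn hj (by omega)

theorem fl_nod (g : ℕ → ℕ) (n : ℕ) : fl (nod g n) = rs g n := by
  unfold fl rs
  rw [len_nod]
  refine List.map_congr_left fun i hi => ?_
  exact dig_nod g (List.mem_range.1 hi)

variable {T0 : List ℕ → Prop}

theorem th_LT (hcl : Cl T0) (h0 : T0 []) : TH (LT T0) prn where
  zero := by
    unfold LT
    rw [fl_zero]
    exact h0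
  up := by
    intro j hj h
    unfold LT at h ⊢
    rw [fl_prn hj]
    exact hcl _ _ (by rw [fl_length]; omega) h
  lt := fun _ hj => prn_lt hj

theorem p_LT (hT : ComputablePred T0) : ComputablePred (LT T0) := by
  have h1 : Computable fl := c_tab (c_lenj c_id) (c_dig (c_fst c_id) (c_snd c_id))
  exact computablePred_comp hT h1

/-! ### the flip along a path -/

/-- the label `j` lies on `F` -/
def OnF (F : ℕ → ℕ) (j : ℕ) : Prop := ∀ i < len j, dig j i = F i

theorem onF_nod (F : ℕ → ℕ) (i : ℕ) : OnF F (nod F i) := by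
  intro k hk
  rw [len_nod] at hk
  exact dig_nod F hk

/-- being a true node with a label on the path -/
def Ch (d : Dat) (F : ℕ → ℕ) (v : ℕ) : Prop := d.J v ≠ 0 ∧ OnF F (d.J v - 1) ∧ PN d v

/-- the flow along the path -/
theorem exists_flow {T : ℕ → Prop} {d : Dat} {F : ℕ → ℕ} (hS : Spec T prn d) (hT : TH T prn)
    (hFT : ∀ i, T (nod F i)) : ∃ t : ℕ → ℕ, Flow d.pa t ∧ par (t 0) = true ∧
      ∀ v y, t v = y ↔ (Ch d F v ∧ ∃ u < y, (y = 2 ^ u ∧ 1 ≤ u ∧ d.pa u = v) ∧ Ch d F u) ∨
        (¬ Ch d F v ∧ y = 0) := by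
  classical
  obtain ⟨g, hg⟩ := exists_tp (d := d) hS.O_le
  choose vi hvi using fun i => pers_exists hS hg (nod F i) (hFT i)
  have hlen : ∀ i, len (d.J (vi i) - 1) = i := by
    intro i
    rw [(hvi i).1, Nat.add_sub_cancel, len_nod]
  have hinj : ∀ i j, vi i = vi j → i = j := by
    intro i j h
    rw [← hlen i, ← hlen j, h]
  have hpa : ∀ i, 1 ≤ vi (i + 1) ∧ d.pa (vi (i + 1)) = vi i := by
    intro i
    obtain ⟨h1, h2⟩ := (hvi (i + 1)).pa hS hT (nod_pos _ i)
    rw [prn_nod] at h2
    exact ⟨h1, h2.uniq hS hT hg (hvi i)⟩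
  have h0 : vi 0 = 0 := (hvi 0).uniq hS hT hg (pers_zero hS)
  have hCh : ∀ v, Ch d F v ↔ ∃ i, v = vi i := by
    intro v
    constructor
    · rintro ⟨h1, h2, h3⟩
      refine ⟨len (d.J v - 1), ?_⟩
      have h4 := (Dim.pers_iff hg (show d.J v = (d.J v - 1) + 1 by omega)).2 h3
      have h5 := hvi (len (d.J v - 1))
      rw [← nod_ext h2] at h5
      exact h4.uniq hS hT hg h5
    · rintro ⟨i, rfl⟩
      refine ⟨by rw [(hvi i).1]; omega, ?_, (Dim.pers_iff hg (hvi i).1).1 (hvi i)⟩
      rw [(hvi i).1, Nat.add_sub_cancel]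
      exact onF_nod F i
  let t : ℕ → ℕ := fun v => if Ch d F v then 2 ^ vi (len (d.J v - 1) + 1) else 0
  have ht1 : ∀ i, t (vi i) = 2 ^ vi (i + 1) := by
    intro i
    show (if Ch d F (vi i) then _ else _) = _
    rw [if_pos ((hCh _).2 ⟨i, rfl⟩), hlen]
  have ht2 : ∀ v, ¬ Ch d F v → t v = 0 := fun v hv => if_neg hv
  refine ⟨t, ⟨?_, ?_⟩, ?_, ?_⟩
  · intro v u hu
    by_cases hv : Ch d F v
    · obtain ⟨i, rfl⟩ := (hCh v).1 hv
      rw [ht1, two_pow_bit] at hu
      rw [hu]
      exact hpa i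
    · rw [ht2 v hv] at hu
      simp at hu
  · intro u hu
    by_cases hv : Ch d F u
    · obtain ⟨i, rfl⟩ := (hCh u).1 hv
      cases i with
      | zero => omega
      | succ i =>
        have h1 : d.pa (vi (i + 1)) = vi i := (hpa i).2
        rw [h1, ht1, ht1, par_two_pow]
        exact two_pow_bit.2 rfl
    · rw [ht2 u hv]
      by_contra hc
      have h1 : (t (d.pa u)).testBit u = true := by
        by_contra hc'
        simp only [Bool.not_eq_true] at hc'
        exact hc (by rw [hc']; rfl)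
      by_cases hv' : Ch d F (d.pa u)
      · obtain ⟨i, hi⟩ := (hCh _).1 hv'
        rw [hi, ht1, two_pow_bit] at h1
        exact hv ((hCh u).2 ⟨i + 1, h1⟩)
      · rw [ht2 _ hv'] at h1
        simp at h1
  · have := ht1 0
    rw [h0] at this
    rw [this, par_two_pow]
  · intro v y
    by_cases hv : Ch d F v
    · obtain ⟨i, hi⟩ := (hCh _).1 hv
      rw [hi, ht1]
      rw [hi] at hv
      constructor
      · intro h
        refine Or.inl ⟨hv, vi (i + 1), ?_, ⟨h.symm, (hpa i).1, (hpa i).2⟩,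
          (hCh _).2 ⟨i + 1, rfl⟩⟩
        rw [← h]
        exact Nat.lt_two_pow_self
      · rintro (⟨_, u, _, ⟨h1, h2, h3⟩, h4⟩ | ⟨h1, _⟩)
        · obtain ⟨k, rfl⟩ := (hCh _).1 h4
          cases k with
          | zero => omega
          | succ k =>
            have h5 : vi k = vi i := by rw [← h3]; exact (hpa k).2.symm
            rw [h1, hinj _ _ h5]
        · exact (h1 hv).elim
    · rw [ht2 _ hv]
      constructor
      · intro h
        exact Or.inr ⟨hv, h.symm⟩
      · rintro (⟨h1, _⟩ | ⟨_, h1⟩)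
        · exact (hv h1).elim
        · exact h1.symm

/-- the flip is an isomorphism -/
theorem flip_iso {pa t : ℕ → ℕ} (hF : Flow pa t) (h0 : par (t 0) = true) (b : Bool) :
    ∃ f : ℕ ≃ ℕ, IsIso (As pa b) (As pa (!b)) f ∧ ∀ x y, f x = y ↔
      (el pa x).unpair.1 = (el pa y).unpair.1 ∧
        t (el pa x).unpair.1 = (el pa y).unpair.2 ^^^ (el pa x).unpair.2 := by
  have hC : CIso pa b (As pa (!b)) fun p => idx pa (sh t p) := by
    refine ⟨fun i p q hp hq => ?_, fun p q hp hq h => ?_, fun z => ?_⟩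
    · rw [sh_rel hF, h0]
      have : (true ^^ b) = !b := by cases b <;> rfl
      rw [this]
      show _ ↔ Rel pa (!b) i (el pa (idx pa (sh t p))) (el pa (idx pa (sh t q)))
      rw [el_idx (sh_valid hF hp), el_idx (sh_valid hF hq)]
    · have h1 : el pa (idx pa (sh t p)) = el pa (idx pa (sh t q)) := by
        rw [show idx pa (sh t p) = idx pa (sh t q) from h]
      rw [el_idx (sh_valid hF hp), el_idx (sh_valid hF hq)] at h1
      rw [← sh_sh t p, h1, sh_sh]
    · refine ⟨sh t (el pa z), sh_valid hF (el_valid _ z), ?_⟩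
      show idx pa (sh t (sh t (el pa z))) = z
      rw [sh_sh, idx_el]
  obtain ⟨f, h1, h2⟩ := hC.toIso
  refine ⟨f, h1, fun x y => ?_⟩
  rw [h2]
  constructor
  · intro h
    have h5 : el pa y = sh t (el pa x) := by
      rw [← h, el_idx (sh_valid hF (el_valid _ _))]
    rw [h5, sh_fst, sh_snd]
    refine ⟨rfl, ?_⟩
    rw [Nat.xor_comm (el pa x).unpair.2, Nat.xor_assoc, Nat.xor_self, Nat.xor_zero]
  · rintro ⟨h5, h6⟩
    have h7 : sh t (el pa x) = el pa y := by
      refine unpair_inj ?_ ?_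
      · rw [sh_fst, h5]
      · rw [sh_snd, h6, Nat.xor_comm (el pa y).unpair.2, ← Nat.xor_assoc, Nat.xor_self,
          Nat.zero_xor]
    rw [h7, idx_el]

/-! ### from isomorphisms to paths -/

/-- the flow of an isomorphism -/
noncomputable def tf (pa : ℕ → ℕ) (f : ℕ ≃ ℕ) (v : ℕ) : ℕ :=
  (el pa (f (idx pa (Nat.pair v 0)))).unpair.2

theorem flow_of_iso {pa : ℕ → ℕ} {f : ℕ ≃ ℕ} (hf : IsIso (As pa false) (As pa true) f) :
    Flow pa (tf pa f) ∧ par (tf pa f 0) = true := by
  have hrel : ∀ i p q, Valid pa p → Valid pa q → (Rel pa false i p q ↔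
      Rel pa true i (el pa (f (idx pa p))) (el pa (f (idx pa q)))) := by
    intro i p q hp hq
    have := hf i (idx pa p) (idx pa q)
    unfold As at this
    rw [el_idx hp, el_idx hq] at this
    exact this
  have hel : ∀ v, el pa (f (idx pa (Nat.pair v 0))) = Nat.pair v (tf pa f v) := by
    intro v
    have h1 := (hrel (Nat.pair 1 v) _ _ (valid_base _ v) (valid_base _ v)).1
      (rel_one.2 ⟨rfl, by rw [Nat.unpair_pair]⟩)
    refine unpair_inj ?_ ?_
    · rw [Nat.unpair_pair]; exact (rel_one.1 h1).2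
    · rw [Nat.unpair_pair]; rfl
  have hval : ∀ v, Valid pa (Nat.pair v (tf pa f v)) := fun v => by
    rw [← hel]; exact el_valid _ _
  refine ⟨⟨?_, ?_⟩, ?_⟩
  · intro v u hu
    have := hval v u
    rw [Nat.unpair_pair] at this
    exact this hu
  · intro u hu
    have h1 := (hrel (Nat.pair 3 u) (Nat.pair (pa u) 0) (Nat.pair u 0)
      (valid_base _ _) (valid_base _ _)).1 (rel_three.2 (by
        rw [Nat.unpair_pair, Nat.unpair_pair]
        exact ⟨hu, rfl, rfl, by rw [Nat.zero_testBit]; rfl⟩))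
    rw [hel, hel] at h1
    have h2 := (rel_three.1 h1).2.2.2
    rw [Nat.unpair_pair, Nat.unpair_pair] at h2
    exact h2
  · have h1 := (hrel 0 (Nat.pair 0 0) (Nat.pair 0 0) (valid_base _ _) (valid_base _ _)).1
      (rel_zero.2 (by rw [Nat.unpair_pair]; exact ⟨rfl, rfl, rfl⟩))
    rw [hel] at h1
    have h2 := (rel_zero.1 h1).2.2
    rw [Nat.unpair_pair] at h2
    exact h2

/-- the least bits of an odd flow give a path -/
theorem path_of_flow {d : Dat} (hS : Spec (LT T0) prn d) (hT : TH (LT T0) prn) {t : ℕ → ℕ}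
    (hF : Flow d.pa t) (h0 : par (t 0) = true) :
    ∃ a F : ℕ → ℕ, a 0 = 0 ∧ (∀ k, NX t (a k) (a (k + 1))) ∧ (∀ n, T0 (rs F n)) ∧
      ∀ i, F i = dig (d.J (a (i + 1)) - 1) i := by
  have hnx : ∀ v, ∃ u, par (t v) = true → NX t v u := by
    intro v
    by_cases h1 : par (t v) = true
    · obtain ⟨u, hu⟩ := NX.exists h1
      exact ⟨u, fun _ => hu⟩
    · exact ⟨0, fun h2 => (h1 h2).elim⟩
  choose nx hnx using hnx
  let a : ℕ → ℕ := fun k => nx^[k] 0
  have ha0 : a 0 = 0 := rfl
  have has : ∀ k, a (k + 1) = nx (a k) := fun k => Function.iterate_succ_apply' nx k 0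
  have hodd : ∀ v u, (t v).testBit u = true → par (t u) = true := by
    intro v u hu
    obtain ⟨h1, h2⟩ := hF.child v u hu
    rw [← hF.par u h1, h2, hu]
  have hinv : ∀ k, par (t (a k)) = true := by
    intro k
    induction k with
    | zero => exact h0
    | succ k ih =>
      have h1 := hnx (a k) ih
      rw [← has k] at h1
      exact hodd _ _ h1.1
  have hNX : ∀ k, NX t (a k) (a (k + 1)) := by
    intro k
    rw [has k]
    exact hnx (a k) (hinv k)
  have hpa : ∀ k, 1 ≤ a (k + 1) ∧ d.pa (a (k + 1)) = a k := fun k => hF.child _ _ (hNX k).1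
  have hst : prn (d.J (a 1) - 1) = 0 := by
    by_cases h1 : d.J (a 1) = 0
    · rw [h1]
      show prn 0 = 0
      unfold prn
      rw [seq_zero]
      rfl
    · obtain ⟨_, _, _, h5, _⟩ := hS.child hT (hpa 0).1
        (show d.J (a (0 + 1)) = (d.J (a 1) - 1) + 1 by show d.J (a 1) = _; omega)
      have h6 := h5.1
      rw [(hpa 0).2, ha0, hS.zero.1] at h6
      omega
  obtain ⟨l, hl, hla⟩ := path_of_chain hS hT (a := fun k => a (k + 1)) hst
    (fun k => (hpa k).1) (fun k => (hpa (k + 1)).2)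
  obtain ⟨G, hG⟩ := path_nod hl
  refine ⟨a, G, ha0, hNX, fun n => ?_, fun i => ?_⟩
  · have h1 := hl.memk hT n
    rw [hG] at h1
    unfold LT at h1
    rw [fl_nod] at h1
    exact h1
  · have h1 := hla i
    rw [hG] at h1
    have h2 : d.J (a (i + 1)) - 1 = nod G (i + 1) := by
      have : d.J (a (i + 1)) = nod G (i + 1) + 1 := h1
      omega
    rw [h2, dig_nod G (by omega)]

end Pool.Agent.Y670.HD
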