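import Mathlib
import Pool.Agent.Y670.HD.Gen

set_option autoImplicit false
set_option maxHeartbeats 400000

/-!
The complexity of the isomorphisms is the complexity of the infinite paths.
-/

namespace Pool.Agent.Y670.HD

open Encodable Denumerable Nat.Partrec Pool.Agent.Helper941 Pool.Agent.Helper941.IsoProb
open Pool.Agent.Helper941.Zeta Pool.Agent.Helper941.Hyp Pool.Agent.Helper941.Dim
open Pool.Agent.Y542 Pool.Agent.Y670.HC

/-- closure properties of a class of predicates -/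
structure PC (Γ : ∀ (α : Type) [Primcodable α], (α → Prop) → Prop) : Prop where
  base : ∀ {α : Type} [Primcodable α] {P : α → Prop}, ComputablePred P → Γ α P
  and : ∀ {α : Type} [Primcodable α] {P Q : α → Prop}, Γ α P → Γ α Q → Γ α fun a => P a ∧ Q a
  or : ∀ {α : Type} [Primcodable α] {P Q : α → Prop}, Γ α P → Γ α Q → Γ α fun a => P a ∨ Q a
  ex : ∀ {α : Type} [Primcodable α] {P : α × ℕ → Prop}, Γ (α × ℕ) P →
    Γ α fun a => ∃ y, P (a, y)
  ball : ∀ {α : Type} [Primcodable α] {P : α × ℕ → Prop}, Γ (α × ℕ) P → ∀ {f : α → ℕ},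
    Computable f → Γ α fun a => ∀ y < f a, P (a, y)
  cp : ∀ {α β : Type} [Primcodable α] [Primcodable β] {P : β → Prop}, Γ β P → ∀ {f : α → β},
    Computable f → Γ α fun a => P (f a)
  iff : ∀ {α : Type} [Primcodable α] {P Q : α → Prop}, Γ α P → (∀ a, Q a ↔ P a) → Γ α Q

/-- the class contains the first two levels of the arithmetical hierarchy -/
structure Low (Γ : ∀ (α : Type) [Primcodable α], (α → Prop) → Prop) : Prop where
  pi : ∀ {P : ℕ → Prop}, Pi0 2 P → Γ ℕ P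
  sig : ∀ {P : ℕ → Prop}, Sigma0 2 P → Γ ℕ P

theorem pc_sigma (n : ℕ) : PC fun _ _ P => Sigma0 (n + 1) P where
  base := fun h => ComputablePred.sigma h
  and := fun h h' => h.and h'
  or := fun h h' => h.or h'
  ex := fun h => h.ex
  ball := fun h _ hf => h.ball hf
  cp := fun h _ hf => h.comp hf
  iff := fun h e => h.of_iff e

theorem low_sigma {n : ℕ} (hn : 2 ≤ n) : Low fun _ _ P => Sigma0 (n + 1) P where
  pi := fun h => Sigma0.lift h.toSigma (by omega)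
  sig := fun h => Sigma0.lift h (by omega)

theorem pc_sig11 : PC fun _ _ P => Sigma11 P where
  base := fun h => Sigma11.of_computable h
  and := fun h h' => h.and h'
  or := fun h h' => h.or h'
  ex := fun h => h.ex
  ball := by
    intro α _ P h f hf
    have h1 : Sigma11 fun q : α × ℕ => ¬ q.2 < f q.1 :=
      Sigma11.of_computable (p_not (p_lt (c_snd c_id) (hf.comp (c_fst c_id))))
    refine (h1.or h).all.of_iff fun a => ?_
    refine forall_congr' fun y => ?_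
    simp only
    tauto
  cp := fun h _ hf => h.comp hf
  iff := fun h e => h.of_iff e

theorem low_sig11 : Low fun _ _ P => Sigma11 P where
  pi := fun {P} h => by
    have h1 : Delta11 fun a => ¬ P a := sigma0_delta 2 h
    exact (h1.not.of_iff fun a => (not_not (a := P a)).symm).1
  sig := fun h => (sigma0_delta 2 h).1

/-- the graph of a function -/
def Gr (f : ℕ → ℕ) (p : ℕ × ℕ) : Prop := f p.1 = p.2

section
variable {Γ : ∀ (α : Type) [Primcodable α], (α → Prop) → Prop}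

/-- substitution into the graph of a function -/
theorem PC.subst (h : PC Γ) {f : ℕ → ℕ} (hf : Γ _ (Gr f)) {α : Type} [Primcodable α]
    {u : α → ℕ} (hu : Computable u) {P : α × ℕ → Prop} (hP : Γ _ P) :
    Γ α fun a => P (a, f (u a)) := by
  have h1 : Γ (α × ℕ) fun q => Gr f (u q.1, q.2) ∧ P q :=
    h.and (h.cp hf (c_pair (hu.comp (c_fst c_id)) (c_snd c_id))) hP
  refine h.iff (h.ex h1) fun a => ?_
  constructor
  · intro h2
    exact ⟨f (u a), rfl, h2⟩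
  · rintro ⟨y, h2, h3⟩
    have : f (u a) = y := h2
    rw [this]
    exact h3

theorem PC.ngr (h : PC Γ) {f : ℕ → ℕ} (hf : Γ _ (Gr f)) : Γ _ fun p => ¬ Gr f p := by
  have h1 := h.subst hf (α := ℕ × ℕ) (u := fun p => p.1) (c_fst c_id)
    (P := fun q => ¬ q.2 = q.1.2) (h.base (p_not (p_eq (c_snd c_id) (c_snd (c_fst c_id)))))
  exact h1

theorem PC.bex (h : PC Γ) {α : Type} [Primcodable α] {P : α × ℕ → Prop} (hP : Γ _ P)
    {f : α → ℕ} (hf : Computable f) : Γ α fun a => ∃ y < f a, P (a, y) := by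
  have h1 : Γ (α × ℕ) fun q => q.2 < f q.1 :=
    h.base (p_lt (c_snd c_id) (hf.comp (c_fst c_id)))
  exact h.iff (h.ex (h.and h1 hP)) fun a => by simp only

/-! ### the path of an isomorphism -/

theorem PC.nx (h : PC Γ) {t : ℕ → ℕ} (ht : Γ _ (Gr t)) : Γ _ fun p : ℕ × ℕ => NX t p.1 p.2 := by
  have h1 : ComputablePred fun q : (ℕ × ℕ) × ℕ => q.2.testBit q.1.2 = true ∧
      ∀ u' < q.1.2, ¬ q.2.testBit u' = true := by
    refine p_and (p_testBit (c_snd c_id) (c_snd (c_fst c_id))) ?_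
    exact p_ball (c_snd (c_fst c_id)) (p_not (p_testBit (c_snd (c_fst c_id)) (c_snd c_id)))
  exact h.subst ht (u := fun p : ℕ × ℕ => p.1) (c_fst c_id) (h.base h1)

theorem PC.path (h : PC Γ) {d : Dat} (hJ : Computable d.J) {t a F : ℕ → ℕ} (ht : Γ _ (Gr t))
    (h0 : a 0 = 0) (h1 : ∀ k, NX t (a k) (a (k + 1)))
    (h3 : ∀ i, F i = dig (d.J (a (i + 1)) - 1) i) : Γ _ (Gr F) := by
  have hNX := h.nx ht
  have h5 : Γ ((ℕ × ℕ) × ℕ) fun q => ent q.2 0 = 0 ∧
      (∀ j, j < q.1.1 + 1 → NX t (ent q.2 j) (ent q.2 (j + 1))) ∧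
      dig (d.J (ent q.2 (q.1.1 + 1)) - 1) q.1.1 = q.1.2 := by
    refine h.and (h.base (p_eq (c_ent (c_snd c_id) (c_const 0)) (c_const 0))) (h.and ?_
      (h.base (p_eq (c_dig (c_sub (hJ.comp (c_ent (c_snd c_id)
        (c_succ (c_fst (c_fst c_id))))) (c_const 1)) (c_fst (c_fst c_id)))
        (c_snd (c_fst c_id)))))
    refine h.ball (P := fun r : ((ℕ × ℕ) × ℕ) × ℕ => NX t (ent r.1.2 r.2) (ent r.1.2 (r.2 + 1)))
      ?_ (f := fun q : (ℕ × ℕ) × ℕ => q.1.1 + 1) (c_succ (c_fst (c_fst c_id)))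
    exact h.cp hNX (f := fun r : ((ℕ × ℕ) × ℕ) × ℕ => (ent r.1.2 r.2, ent r.1.2 (r.2 + 1)))
      (c_pair (c_ent (c_snd (c_fst c_id)) (c_snd c_id))
        (c_ent (c_snd (c_fst c_id)) (c_succ (c_snd c_id))))
  refine h.iff (h.ex h5) fun p => ?_
  obtain ⟨i, y⟩ := p
  show F i = y ↔ ∃ c, ent c 0 = 0 ∧ (∀ j, j < i + 1 → NX t (ent c j) (ent c (j + 1))) ∧
    dig (d.J (ent c (i + 1)) - 1) i = y
  constructor
  · intro h6
    obtain ⟨c, hc⟩ := exists_ent (i + 2) a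
    refine ⟨c, ?_, fun j hj => ?_, ?_⟩
    · rw [hc 0 (by omega), h0]
    · rw [hc j (by omega), hc (j + 1) (by omega)]
      exact h1 j
    · rw [hc (i + 1) (by omega), ← h3 i]
      exact h6
  · rintro ⟨c, h6, h7, h8⟩
    have h9 : ∀ j, j ≤ i + 1 → ent c j = a j := by
      intro j
      induction j with
      | zero => intro _; rw [h6, h0]
      | succ j ih =>
        intro hj
        have h10 := h7 j (by omega)
        rw [ih (by omega)] at h10
        exact h10.uniq (h1 j)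
    rw [h9 (i + 1) (le_refl _), ← h3 i] at h8
    exact h8

theorem PC.tf (h : PC Γ) {pa : ℕ → ℕ} (hpa : Computable pa) {f : ℕ ≃ ℕ}
    (hf : Γ _ (Gr f)) : Γ _ (Gr (HD.tf pa f)) := by
  have h1 := h.subst hf (α := ℕ × ℕ) (u := fun p => idx pa (Nat.pair p.1 0))
    ((c_idx hpa).comp (c_npair (c_fst c_id) (c_const 0)))
    (P := fun q => (el pa q.2).unpair.2 = q.1.2)
    (h.base (p_eq (c_up2 ((c_el hpa).comp (c_snd c_id))) (c_snd (c_fst c_id))))
  exact h1

/-- an isomorphism in the class gives a path in the class -/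
theorem PC.path_of_iso (h : PC Γ) {T0 : List ℕ → Prop} {d : Dat} (hS : Spec (LT T0) prn d)
    (hT : TH (LT T0) prn) (hpa : Computable d.pa) (hJ : Computable d.J) {f : ℕ ≃ ℕ}
    (hf : IsIso (As d.pa false) (As d.pa true) f) (hg : Γ _ (Gr f)) :
    ∃ F : ℕ → ℕ, (∀ n, T0 (rs F n)) ∧ Γ _ (Gr F) := by
  obtain ⟨hF, h0⟩ := flow_of_iso hf
  obtain ⟨a, F, h1, h2, h3, h4⟩ := path_of_flow hS hT hF h0
  exact ⟨F, h3, h.path hJ (h.tf hpa hg) h1 h2 h4⟩

/-! ### the flip of a path -/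

theorem PC.onF (h : PC Γ) {F : ℕ → ℕ} (hF : Γ _ (Gr F)) : Γ _ (OnF F) := by
  refine h.ball (P := fun p : ℕ × ℕ => dig p.1 p.2 = F p.2) ?_ (f := fun j : ℕ => len j)
    (c_lenj c_id)
  refine h.iff (h.cp hF (f := fun p : ℕ × ℕ => (p.2, dig p.1 p.2)) (c_pair (c_snd c_id)
    (c_dig (c_fst c_id) (c_snd c_id)))) fun p => ?_
  exact eq_comm

theorem PC.nonF (h : PC Γ) {F : ℕ → ℕ} (hF : Γ _ (Gr F)) : Γ _ fun j => ¬ OnF F j := by
  have h1 := h.bex (P := fun p : ℕ × ℕ => ¬ Gr F (p.2, dig p.1 p.2))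
    (h.cp (h.ngr hF) (f := fun p : ℕ × ℕ => (p.2, dig p.1 p.2)) (c_pair (c_snd c_id)
      (c_dig (c_fst c_id) (c_snd c_id)))) (f := fun j : ℕ => len j) (c_lenj c_id)
  refine h.iff h1 fun j => ?_
  unfold OnF Gr
  push Not
  refine exists_congr fun i => and_congr_right fun _ => ?_
  exact ne_comm

section
variable {T : ℕ → Prop} (hT : ComputablePred T)
include hT

theorem PC.ch (h : PC Γ) (hl : Low Γ) {F : ℕ → ℕ} (hF : Γ _ (Gr F)) :
    Γ _ (Ch (con T prn) F) := by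
  refine h.and (h.base (p_not (p_eq (con_J hT c_prn c_id) (c_const 0)))) (h.and ?_
    (hl.pi (pi_PN hT c_prn)))
  exact h.cp (h.onF hF) (c_sub (con_J hT c_prn c_id) (c_const 1))

theorem PC.nch (h : PC Γ) (hl : Low Γ) {F : ℕ → ℕ} (hF : Γ _ (Gr F)) :
    Γ _ fun v => ¬ Ch (con T prn) F v := by
  have h1 : Γ ℕ fun v => (con T prn).J v = 0 :=
    h.base (p_eq (con_J hT c_prn c_id) (c_const 0))
  have h2 : Γ ℕ fun v => ¬ OnF F ((con T prn).J v - 1) :=
    h.cp (h.nonF hF) (c_sub (con_J hT c_prn c_id) (c_const 1))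
  have h3 : Γ ℕ fun v => ¬ PN (con T prn) v := hl.sig (Pi0.not (pi_PN hT c_prn))
  refine h.iff (h.or h1 (h.or h2 h3)) fun v => ?_
  unfold Ch
  tauto

theorem PC.flow (h : PC Γ) (hl : Low Γ) {F t : ℕ → ℕ} (hF : Γ _ (Gr F))
    (ht : ∀ v y, t v = y ↔ (Ch (con T prn) F v ∧ ∃ u < y, (y = 2 ^ u ∧ 1 ≤ u ∧
      (con T prn).pa u = v) ∧ Ch (con T prn) F u) ∨ (¬ Ch (con T prn) F v ∧ y = 0)) :
    Γ _ (Gr t) := by
  have hpa : Computable (con T prn).pa := con_pa hT c_prn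
  have hc := h.ch hT hl hF
  have hn := h.nch hT hl hF
  have h1 : Γ ((ℕ × ℕ) × ℕ) fun q => (q.1.2 = 2 ^ q.2 ∧ 1 ≤ q.2 ∧
      (con T prn).pa q.2 = q.1.1) ∧ Ch (con T prn) F q.2 := by
    refine h.and (h.base ?_) (h.cp hc (c_snd c_id))
    exact p_and (p_eq (c_snd (c_fst c_id)) (c_pow (c_snd c_id))) (p_and
      (p_le (c_const 1) (c_snd c_id)) (p_eq (hpa.comp (c_snd c_id)) (c_fst (c_fst c_id))))
  have h2 : Γ (ℕ × ℕ) fun p => ∃ u < p.2, (p.2 = 2 ^ u ∧ 1 ≤ u ∧ (con T prn).pa u = p.1) ∧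
      Ch (con T prn) F u := h.bex h1 (f := fun p : ℕ × ℕ => p.2) (c_snd c_id)
  refine h.iff (h.or (h.and (h.cp hc (f := fun p : ℕ × ℕ => p.1) (c_fst c_id)) h2)
    (h.and (h.cp hn (f := fun p : ℕ × ℕ => p.1) (c_fst c_id))
      (h.base (p_eq (c_snd c_id) (c_const 0))))) fun p => ?_
  exact ht p.1 p.2

end

theorem PC.flip (h : PC Γ) {pa t : ℕ → ℕ} (hpa : Computable pa) (ht : Γ _ (Gr t)) {f : ℕ ≃ ℕ}
    (hf : ∀ x y, f x = y ↔ (el pa x).unpair.1 = (el pa y).unpair.1 ∧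
      t (el pa x).unpair.1 = (el pa y).unpair.2 ^^^ (el pa x).unpair.2) : Γ _ (Gr f) := by
  have hel : Computable (el pa) := c_el hpa
  have e1 : Computable fun p : ℕ × ℕ => el pa p.1 := hel.comp (c_fst c_id)
  have e2 : Computable fun p : ℕ × ℕ => el pa p.2 := hel.comp (c_snd c_id)
  have h3 := h.cp ht (f := fun p : ℕ × ℕ => ((el pa p.1).unpair.1,
      (el pa p.2).unpair.2 ^^^ (el pa p.1).unpair.2))
      (c_pair (c_up1 e1) (c_xor (c_up2 e2) (c_up2 e1)))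
  have h4 : Γ (ℕ × ℕ) fun p => (el pa p.1).unpair.1 = (el pa p.2).unpair.1 :=
    h.base (p_eq (c_up1 e1) (c_up1 e2))
  exact h.iff (h.and h4 h3) fun p => hf p.1 p.2

end

/-! ### the level of autostability -/

/-- any two computable copies are isomorphic by an isomorphism with a graph in the class -/
def GAuto (Γ : ∀ (α : Type) [Primcodable α], (α → Prop) → Prop) (A : Str) : Prop :=
  ∀ B C : Str, IsCopy A B → IsCopy A C → ∃ f : ℕ ≃ ℕ, IsIso B C f ∧ Γ _ (Gr f)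

section
variable {T0 : List ℕ → Prop}

/-- the structure of a tree -/
noncomputable def ST (T0 : List ℕ → Prop) (b : Bool) : Str := As (con (LT T0) prn).pa b

theorem nil_of {F : ℕ → ℕ} (h : ∀ n, T0 (rs F n)) : T0 [] := h 0

theorem st_comp (hc : ComputablePred T0) (b : Bool) : IsComp (ST T0 b) :=
  as_comp (con_pa (p_LT hc) c_prn) b

theorem lt_nod {F : ℕ → ℕ} (h : ∀ n, T0 (rs F n)) (i : ℕ) : LT T0 (nod F i) := by
  unfold LT
  rw [fl_nod]
  exact h i

/-- the flip is in every class containing the path -/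
theorem st_flip (hc : ComputablePred T0) (hcl : Cl T0) {F : ℕ → ℕ} (h : ∀ n, T0 (rs F n))
    (b : Bool) : ∃ f : ℕ ≃ ℕ, IsIso (ST T0 b) (ST T0 (!b)) f ∧
      ∀ Γ : ∀ (α : Type) [Primcodable α], (α → Prop) → Prop, PC Γ → Low Γ → Γ _ (Gr F) →
        Γ _ (Gr f) := by
  have hT : ComputablePred (LT T0) := p_LT hc
  have hTH : TH (LT T0) prn := th_LT hcl (nil_of h)
  obtain ⟨t, h1, h2, h3⟩ := exists_flow (con_spec (LT T0) prn) hTH (lt_nod h)
  obtain ⟨f, h4, h5⟩ := flip_iso h1 h2 b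
  exact ⟨f, h4, fun Γ hΓ hl hF => hΓ.flip (con_pa hT c_prn) (hΓ.flow hT hl hF h3) h5⟩

theorem st_copy (hc : ComputablePred T0) (hcl : Cl T0) {F : ℕ → ℕ} (h : ∀ n, T0 (rs F n))
    (b : Bool) : IsCopy (ST T0 false) (ST T0 b) := by
  refine ⟨st_comp hc b, ?_⟩
  cases b with
  | false => exact ⟨Equiv.refl ℕ, fun _ _ _ => Iff.rfl⟩
  | true =>
    obtain ⟨f, hf, _⟩ := st_flip hc hcl h false
    exact ⟨f, hf⟩

/-- the level of autostability is the level of the paths -/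
theorem gauto_iff {Γ : ∀ (α : Type) [Primcodable α], (α → Prop) → Prop} (hΓ : PC Γ)
    (hl : Low Γ) (hc : ComputablePred T0) (hcl : Cl T0) (hp : ∃ F : ℕ → ℕ, ∀ n, T0 (rs F n)) :
    GAuto Γ (ST T0 false) ↔ ∃ F : ℕ → ℕ, (∀ n, T0 (rs F n)) ∧ Γ _ (Gr F) := by
  have hT : ComputablePred (LT T0) := p_LT hc
  obtain ⟨F0, hF0⟩ := hp
  have hTH : TH (LT T0) prn := th_LT hcl (nil_of hF0)
  constructor
  · intro h
    obtain ⟨f, hf, hg⟩ := h _ _ (st_copy hc hcl hF0 false) (st_copy hc hcl hF0 true)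
    exact hΓ.path_of_iso (con_spec (LT T0) prn) hTH (con_pa hT c_prn)
      (con_J hT c_prn c_id) hf hg
  · rintro ⟨F, hF, hFg⟩ B C hB hC
    obtain ⟨b, h, hh, hhc⟩ := copies hT c_prn hTH hB
    obtain ⟨c, k, hk, hkc⟩ := copies hT c_prn hTH hC
    have hm : ∃ m : ℕ ≃ ℕ, IsIso (ST T0 b) (ST T0 c) m ∧ Γ _ (Gr m) := by
      by_cases hbc : c = b
      · subst hbc
        exact ⟨Equiv.refl ℕ, fun _ _ _ => Iff.rfl, hΓ.base (p_eq (c_fst c_id) (c_snd c_id))⟩
      · have : c = !b := by cases b <;> cases c <;> simp_all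
        subst this
        obtain ⟨m, hm, hmg⟩ := st_flip hc hcl hF b
        exact ⟨m, hm, hmg Γ hΓ hl hFg⟩
    obtain ⟨m, hm1, hm2⟩ := hm
    refine ⟨(h.symm.trans m).trans k, (hh.symm.trans hm1).trans hk, ?_⟩
    have h1 := hΓ.cp hm2 (f := fun p : ℕ × ℕ => (h.symm p.1, k.symm p.2))
      (c_pair ((computable_symm hhc).comp (c_fst c_id))
        ((computable_symm hkc).comp (c_snd c_id)))
    refine hΓ.iff h1 fun p => ?_
    show k (m (h.symm p.1)) = p.2 ↔ m (h.symm p.1) = k.symm p.2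
    exact (Equiv.eq_symm_apply k).symm

/-- functions with a `Σ⁰_1` graph are computable -/
theorem comp_of_gr {F : ℕ → ℕ} (h : Sigma0 1 (Gr F)) : Computable F := by
  obtain ⟨Q, hQ, e⟩ := h
  have hQ' : ComputablePred Q := hQ
  have h1 : ComputablePred fun p : ℕ × ℕ => ¬ Q ((p.1, p.2.unpair.1), p.2.unpair.2) :=
    p_not (computablePred_comp hQ' (c_pair (c_pair (c_fst c_id) (c_up1 (c_snd c_id)))
      (c_up2 (c_snd c_id))))
  have h2 : ∀ i, ∃ m : ℕ, ¬ Q ((i, m.unpair.1), m.unpair.2) := by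
    intro i
    obtain ⟨y, hy⟩ := (e (i, F i)).1 rfl
    exact ⟨Nat.pair (F i) y, by rw [Nat.unpair_pair]; exact hy⟩
  have h3 := c_least (P := fun i m : ℕ => ¬ Q ((i, m.unpair.1), m.unpair.2)) h1 h2
  refine (c_up1 h3).of_eq fun i => ?_
  have h4 : ¬ Q ((i, (sInf {m : ℕ | ¬ Q ((i, m.unpair.1), m.unpair.2)}).unpair.1),
      (sInf {m : ℕ | ¬ Q ((i, m.unpair.1), m.unpair.2)}).unpair.2) :=
    Nat.sInf_mem (s := {m : ℕ | ¬ Q ((i, m.unpair.1), m.unpair.2)}) (h2 i)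
  exact ((e (i, _)).2 ⟨_, h4⟩ : F i = _).symm

theorem not_compIso (hc : ComputablePred T0) (hcl : Cl T0)
    (hp : ∃ F : ℕ → ℕ, ∀ n, T0 (rs F n)) (hn : ∀ F : ℕ → ℕ, (∀ n, T0 (rs F n)) → ¬ Computable F) :
    ¬ CompIso (ST T0 false) (ST T0 true) := by
  rintro ⟨f, hf, hfc⟩
  have hT : ComputablePred (LT T0) := p_LT hc
  obtain ⟨F0, hF0⟩ := hp
  have hTH : TH (LT T0) prn := th_LT hcl (nil_of hF0)
  have hg : Sigma0 1 (Gr f) :=
    ComputablePred.sigma (p_eq (hfc.comp (c_fst c_id)) (c_snd c_id))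
  obtain ⟨F, h1, h2⟩ := (pc_sigma 0).path_of_iso (con_spec (LT T0) prn) hTH
    (con_pa hT c_prn) (con_J hT c_prn c_id) hf hg
  exact hn F h1 (comp_of_gr h2)

theorem dim_two (hc : ComputablePred T0) (hcl : Cl T0)
    (hp : ∃ F : ℕ → ℕ, ∀ n, T0 (rs F n)) (hn : ∀ F : ℕ → ℕ, (∀ n, T0 (rs F n)) → ¬ Computable F) :
    compDim (ST T0 false) = 2 := by
  have hnc := not_compIso hc hcl hp hn
  have hT : ComputablePred (LT T0) := p_LT hc
  obtain ⟨F0, hF0⟩ := hp
  have hTH : TH (LT T0) prn := th_LT hcl (nil_of hF0)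
  let φ : Bool → Quotient (copySetoid (ST T0 false)) := fun b =>
    Quotient.mk _ ⟨ST T0 b, st_copy hc hcl hF0 b⟩
  have hφ : Function.Bijective φ := by
    constructor
    · intro b c h
      have h1 : CompIso (ST T0 b) (ST T0 c) := Quotient.exact h
      cases b <;> cases c
      · rfl
      · exact (hnc h1).elim
      · exact (hnc h1.symm).elim
      · rfl
    · intro q
      induction q using Quotient.inductionOn with
      | h B =>
        obtain ⟨b, hb⟩ := copies hT c_prn hTH B.2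
        exact ⟨b, Quotient.sound hb⟩
  unfold compDim
  rw [← Cardinal.mk_congr (Equiv.ofBijective φ hφ)]
  exact Cardinal.mk_bool

end

end Pool.Agent.Y670.HD
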