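import Mathlib
import Pool.Agent.Helper941.Dim.Defs
import Pool.Agent.Helper941.Hyp.Defs

set_option autoImplicit false

/-!
Oracle computability, paths of trees, and the levels of autostability.
-/

namespace Pool.Agent.Y670.HD

open Pool.Agent.Helper941.Dim Pool.Agent.Helper941.Hyp

/-- `P` is computably enumerable relative to the oracle `X`: for a computable predicate `R`,
`P a` holds iff `R` holds of `a` and of some finite initial segment of `X`. -/
def CEIn (X : ℕ → ℕ) {α : Type} [Primcodable α] (P : α → Prop) : Prop :=
  ∃ R : α × List ℕ → Prop, ComputablePred R ∧ ∀ a, P a ↔ ∃ n, R (a, (List.range n).map X)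

/-- `f` is computable from the oracle `X`: its graph is computably enumerable relative to `X`. -/
def CompIn (X f : ℕ → ℕ) : Prop := CEIn X fun p : ℕ × ℕ => f p.1 = p.2

/-- `X` computes the second jump `0''`: every `Σ⁰_2` set is computable from `X`. -/
def AboveDoubleJump (X : ℕ → ℕ) : Prop :=
  ∀ P : ℕ → Prop, Sig 2 P → CEIn X P ∧ CEIn X fun n => ¬ P n

/-- `A` is `X`-autostable: any two computable copies of `A` are isomorphic by an isomorphism
which is computable from `X`. -/
def AutostableIn (X : ℕ → ℕ) (A : Str) : Prop :=
  ∀ B C : Str, IsCopy A B → IsCopy A C → ∃ f : ℕ ≃ ℕ, IsIso B C f ∧ CompIn X f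

/-- `f` is hyperarithmetic: its graph is a `Δ¹₁` set. -/
def HypFun (f : ℕ → ℕ) : Prop := Delta11 fun p : ℕ × ℕ => f p.1 = p.2

/-- `A` is hyperarithmetically autostable (that is `Δ⁰_α`-autostable with some computable
ordinal `α` for every pair of computable copies): any two computable copies of `A` are isomorphic
by a hyperarithmetic isomorphism. -/
def HypAutostable (A : Str) : Prop :=
  ∀ B C : Str, IsCopy A B → IsCopy A C → ∃ f : ℕ ≃ ℕ, IsIso B C f ∧ HypFun f

/-- `F` is an infinite path of the tree `T` of finite sequences of natural numbers. -/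
def IsBranch (T : List ℕ → Prop) (F : ℕ → ℕ) : Prop := ∀ n, T ((List.range n).map F)

/-- `T` is a computable tree of finite sequences of natural numbers (closed under initial
segments) which has infinite paths but no computable infinite path. -/
structure GoodTree (T : List ℕ → Prop) : Prop where
  comp : ComputablePred T
  tree : ∀ l m, T l → T (l.take m)
  path : ∃ F, IsBranch T F
  noncomp : ∀ F, IsBranch T F → ¬ Computable F

end Pool.Agent.Y670.HD
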