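import Mathlib
import Pool.Agent.Y670.HD.Cls
import Pool.Agent.Y670.HD.Defs

set_option autoImplicit false
set_option maxHeartbeats 400000

/-!
Closure properties of the relatively computably enumerable predicates.
-/

namespace Pool.Agent.Y670.HD

open Encodable Denumerable Nat.Partrec Pool.Agent.Helper941 Pool.Agent.Helper941.IsoProb
open Pool.Agent.Helper941.Zeta Pool.Agent.Helper941.Hyp Pool.Agent.Helper941.Dim
open Pool.Agent.Y542 Pool.Agent.Y670.HC

variable {X : ℕ → ℕ}

/-- a monotone normal form -/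
theorem ce_mono {α : Type} [Primcodable α] {P : α → Prop} (h : CEIn X P) :
    ∃ R : α × List ℕ → Prop, ComputablePred R ∧ (∀ a, P a ↔ ∃ n, R (a, rs X n)) ∧
      ∀ a n m, n ≤ m → R (a, rs X n) → R (a, rs X m) := by
  obtain ⟨R, hR, e⟩ := h
  refine ⟨fun p => ∃ n < p.2.length + 1, R (p.1, tk p.2 n), ?_, fun a => ?_, ?_⟩
  · exact p_bex (c_succ (Computable.list_length.comp (c_snd c_id)))
      (computablePred_comp hR (c_pair (c_fst (c_fst c_id)) (c_tk (c_snd (c_fst c_id))
        (c_snd c_id))))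
  · rw [e]
    constructor
    · rintro ⟨n, hn⟩
      refine ⟨n, n, by rw [rs_length]; omega, ?_⟩
      show R (a, tk (rs X n) n)
      rw [tk_rs X (le_refl n)]
      exact hn
    · rintro ⟨m, n, hn, h1⟩
      have hn' : n < (rs X m).length + 1 := hn
      rw [rs_length] at hn'
      have h2 : R (a, tk (rs X m) n) := h1
      rw [tk_rs X (by omega)] at h2
      exact ⟨n, h2⟩
  · rintro a n m hnm ⟨k, hk, h1⟩
    have hk' : k < (rs X n).length + 1 := hk
    rw [rs_length] at hk'
    have h2 : R (a, tk (rs X n) k) := h1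
    refine ⟨k, by show k < (rs X m).length + 1; rw [rs_length]; omega, ?_⟩
    show R (a, tk (rs X m) k)
    rw [tk_rs X (by omega)] at h2 ⊢
    exact h2

theorem pc_ce (X : ℕ → ℕ) : PC fun _ _ P => CEIn X P where
  base := fun {α} _ {P} h => ⟨fun p => P p.1, computablePred_comp h (c_fst c_id),
    fun a => ⟨fun h1 => ⟨0, h1⟩, fun ⟨_, h1⟩ => h1⟩⟩
  and := by
    intro α _ P Q h h'
    obtain ⟨R, hR, e, m⟩ := ce_mono h
    obtain ⟨S, hS, e', m'⟩ := ce_mono h'
    refine ⟨fun p => R p ∧ S p, p_and hR hS, fun a => ?_⟩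
    show P a ∧ Q a ↔ ∃ n, R (a, rs X n) ∧ S (a, rs X n)
    rw [e, e']
    constructor
    · rintro ⟨⟨n, hn⟩, n', hn'⟩
      exact ⟨max n n', m _ _ _ (le_max_left _ _) hn, m' _ _ _ (le_max_right _ _) hn'⟩
    · rintro ⟨n, h1, h2⟩
      exact ⟨⟨n, h1⟩, n, h2⟩
  or := by
    intro α _ P Q h h'
    obtain ⟨R, hR, e⟩ := h
    obtain ⟨S, hS, e'⟩ := h'
    refine ⟨fun p => R p ∨ S p, p_or hR hS, fun a => ?_⟩
    show P a ∨ Q a ↔ ∃ n, R (a, rs X n) ∨ S (a, rs X n)
    rw [e, e']
    constructor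
    · rintro (⟨n, hn⟩ | ⟨n, hn⟩)
      · exact ⟨n, Or.inl hn⟩
      · exact ⟨n, Or.inr hn⟩
    · rintro ⟨n, h1 | h1⟩
      · exact Or.inl ⟨n, h1⟩
      · exact Or.inr ⟨n, h1⟩
  ex := by
    intro α _ P h
    obtain ⟨R, hR, e, m⟩ := ce_mono h
    refine ⟨fun p => ∃ y < p.2.length, R ((p.1, y), p.2), ?_, fun a => ?_⟩
    · exact p_bex (Computable.list_length.comp (c_snd c_id)) (computablePred_comp hR
        (c_pair (c_pair (c_fst (c_fst c_id)) (c_snd c_id)) (c_snd (c_fst c_id))))
    · constructor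
      · rintro ⟨y, hy⟩
        obtain ⟨n, hn⟩ := (e _).1 hy
        refine ⟨max n (y + 1), y, ?_, m _ _ _ (le_max_left _ _) hn⟩
        show y < (rs X (max n (y + 1))).length
        rw [rs_length]
        exact lt_of_lt_of_le (Nat.lt_succ_self y) (le_max_right _ _)
      · rintro ⟨n, y, _, hy⟩
        exact ⟨y, (e _).2 ⟨n, hy⟩⟩
  ball := by
    intro α _ P h f hf
    obtain ⟨R, hR, e, m⟩ := ce_mono h
    refine ⟨fun p => ∀ y < f p.1, R ((p.1, y), p.2), ?_, fun a => ?_⟩
    · exact p_ball (hf.comp (c_fst c_id)) (computablePred_comp hR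
        (c_pair (c_pair (c_fst (c_fst c_id)) (c_snd c_id)) (c_snd (c_fst c_id))))
    · constructor
      · intro h1
        have h2 : ∀ y, ∃ n, y < f a → R ((a, y), rs X n) := by
          intro y
          by_cases hy : y < f a
          · obtain ⟨n, hn⟩ := (e _).1 (h1 y hy)
            exact ⟨n, fun _ => hn⟩
          · exact ⟨0, fun h3 => (hy h3).elim⟩
        choose n hn using h2
        refine ⟨∑ y ∈ Finset.range (f a), n y, fun y hy => ?_⟩
        refine m _ _ _ ?_ (hn y hy)
        exact Finset.single_le_sum (f := n) (fun _ _ => Nat.zero_le _) (Finset.mem_range.2 hy)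
      · rintro ⟨n, h1⟩ y hy
        exact (e _).2 ⟨n, h1 y hy⟩
  cp := by
    intro α β _ _ P h f hf
    obtain ⟨R, hR, e⟩ := h
    exact ⟨fun p => R (f p.1, p.2), computablePred_comp hR (c_pair (hf.comp (c_fst c_id))
      (c_snd c_id)), fun a => e (f a)⟩
  iff := by
    intro α _ P Q h e'
    obtain ⟨R, hR, e⟩ := h
    exact ⟨R, hR, fun a => (e' a).trans (e a)⟩

theorem low_ce (h : AboveDoubleJump X) : Low fun _ _ P => CEIn X P where
  pi := by
    intro P hP
    have h1 : Sig 2 fun n => ¬ P n := (sig_iff 2 _).2 hP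
    have h2 := (h _ h1).2
    exact (pc_ce X).iff h2 fun n => (not_not (a := P n)).symm
  sig := by
    intro P hP
    exact (h P ((sig_iff 2 _).2 hP)).1

/-- transitivity -/
theorem ce_trans {X Y : ℕ → ℕ} (hXY : CompIn Y X) {α : Type} [Primcodable α] {P : α → Prop}
    (h : CEIn X P) : CEIn Y P := by
  obtain ⟨R, hR, e⟩ := h
  have hc := pc_ce Y
  have h1 : CEIn Y fun q : (α × ℕ) × ℕ => (∀ i < q.1.2, X i = ent q.2 i) ∧
      R (q.1.1, (List.range q.1.2).map (ent q.2)) := by
    refine hc.and ?_ (hc.base (computablePred_comp hR (c_pair (c_fst (c_fst c_id))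
      (c_tab (c_snd (c_fst c_id)) (c_ent (c_snd (c_fst c_id)) (c_snd c_id))))))
    exact hc.ball (P := fun r : ((α × ℕ) × ℕ) × ℕ => X r.2 = ent r.1.2 r.2)
      (hc.cp hXY (f := fun r : ((α × ℕ) × ℕ) × ℕ => (r.2, ent r.1.2 r.2)) (c_pair (c_snd c_id)
        (c_ent (c_snd (c_fst c_id)) (c_snd c_id)))) (f := fun q : (α × ℕ) × ℕ => q.1.2)
      (c_snd (c_fst c_id))
  refine hc.iff (hc.ex (hc.ex h1)) fun a => ?_
  rw [e]
  refine exists_congr fun n => ?_
  constructor
  · intro h2
    obtain ⟨c, hcc⟩ := exists_ent n X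
    refine ⟨c, fun i hi => (hcc i hi).symm, ?_⟩
    have h3 : (List.range n).map (ent c) = (List.range n).map X :=
      List.map_congr_left fun i hi => hcc i (List.mem_range.1 hi)
    show R (a, (List.range n).map (ent c))
    rw [h3]
    exact h2
  · rintro ⟨c, h2, h3⟩
    have h4 : (List.range n).map (ent c) = (List.range n).map X :=
      List.map_congr_left fun i hi => (h2 i (List.mem_range.1 hi)).symm
    have h5 : R (a, (List.range n).map (ent c)) := h3
    rw [h4] at h5
    exact h5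

/-! ### graphs -/

theorem gr_sigma_iff {n : ℕ} {f : ℕ → ℕ} : DeltaFun (n + 1) f ↔ Sigma0 (n + 1) (Gr f) := by
  constructor
  · intro h
    exact ((del_iff _ _).1 h).1
  · intro h
    exact (del_iff _ _).2 ⟨h, (pc_sigma n).ngr h⟩

theorem gr_hyp_iff {f : ℕ → ℕ} : HypFun f ↔ Sigma11 (Gr f) :=
  ⟨fun h => h.1, fun h => ⟨h, pc_sig11.ngr h⟩⟩

theorem cl_of_take {T : List ℕ → Prop} (h : ∀ l m, T l → T (l.take m)) : Cl T := by
  intro l m hm hl
  have h1 : tk l m = l.take m := by
    refine List.ext_getElem ?_ fun i h1 h2 => ?_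
    · rw [tk_length, List.length_take]; omega
    · rw [tk_length] at h1
      have h3 := gt_tk (l := l) h1
      unfold gt at h3
      rw [List.getElem?_eq_getElem (by rw [tk_length]; exact h1),
        List.getElem?_eq_getElem (by omega)] at h3
      rw [List.getElem_take]
      simpa using h3
  rw [h1]
  exact h l m hl

end Pool.Agent.Y670.HD
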