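import Mathlib
import Pool.Agent.Y670.HD.CE

set_option autoImplicit false
set_option maxHeartbeats 400000

/-!
The isomorphisms between two computable structures are the infinite paths of a computable tree.
-/

namespace Pool.Agent.Y670.HD

open Encodable Denumerable Nat.Partrec Pool.Agent.Helper941 Pool.Agent.Helper941.IsoProb
open Pool.Agent.Helper941.Zeta Pool.Agent.Helper941.Hyp Pool.Agent.Helper941.Dim
open Pool.Agent.Y542 Pool.Agent.Y670.HC

theorem gt_take {l : List ℕ} {m i : ℕ} (h : i < m) : gt (l.take m) i = gt l i := by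
  unfold gt
  rw [List.getElem?_take, if_pos h]

/-- finite approximations of isomorphisms -/
def TI (B C : Str) (l : List ℕ) : Prop :=
  (∀ x < l.length, ∀ y < l.length, 2 * x < l.length → 2 * y + 1 < l.length →
    (gt l (2 * x) = y ↔ gt l (2 * y + 1) = x)) ∧
  ∀ i < l.length, ∀ x < l.length, ∀ y < l.length, 2 * x < l.length → 2 * y < l.length →
    (B i x y ↔ C i (gt l (2 * x)) (gt l (2 * y)))

theorem ti_take {B C : Str} {l : List ℕ} (m : ℕ) (h : TI B C l) : TI B C (l.take m) := by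
  have hl : (l.take m).length = min m l.length := List.length_take
  constructor
  · intro x hx y hy h1 h2
    rw [gt_take (by omega), gt_take (by omega)]
    exact h.1 x (by omega) y (by omega) (by omega) (by omega)
  · intro i hi x hx y hy h1 h2
    rw [gt_take (by omega), gt_take (by omega)]
    exact h.2 i (by omega) x (by omega) y (by omega) (by omega) (by omega)

theorem p_TI {B C : Str} (hB : IsComp B) (hC : IsComp C) : ComputablePred (TI B C) := by
  have hlen : Computable fun l : List ℕ => l.length := Computable.list_length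
  refine p_and ?_ ?_
  · refine p_ball hlen (p_ball (hlen.comp (c_fst c_id)) ?_)
    have x : Computable fun q : (List ℕ × ℕ) × ℕ => q.1.2 := c_snd (c_fst c_id)
    have y : Computable fun q : (List ℕ × ℕ) × ℕ => q.2 := c_snd c_id
    have l : Computable fun q : (List ℕ × ℕ) × ℕ => q.1.1 := c_fst (c_fst c_id)
    have x2 : Computable fun q : (List ℕ × ℕ) × ℕ => 2 * q.1.2 := c_mul (c_const 2) x
    have y2 : Computable fun q : (List ℕ × ℕ) × ℕ => 2 * q.2 + 1 :=
      c_succ (c_mul (c_const 2) y)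
    exact p_imp (p_lt x2 (hlen.comp l)) (p_imp (p_lt y2 (hlen.comp l))
      (p_iff (p_eq (c_gt l x2) y) (p_eq (c_gt l y2) x)))
  · refine p_ball hlen (p_ball (hlen.comp (c_fst c_id)) (p_ball
      (hlen.comp (c_fst (c_fst c_id))) ?_))
    have i : Computable fun q : ((List ℕ × ℕ) × ℕ) × ℕ => q.1.1.2 :=
      c_snd (c_fst (c_fst c_id))
    have x : Computable fun q : ((List ℕ × ℕ) × ℕ) × ℕ => q.1.2 := c_snd (c_fst c_id)
    have y : Computable fun q : ((List ℕ × ℕ) × ℕ) × ℕ => q.2 := c_snd c_id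
    have l : Computable fun q : ((List ℕ × ℕ) × ℕ) × ℕ => q.1.1.1 :=
      c_fst (c_fst (c_fst c_id))
    have x2 : Computable fun q : ((List ℕ × ℕ) × ℕ) × ℕ => 2 * q.1.2 := c_mul (c_const 2) x
    have y2 : Computable fun q : ((List ℕ × ℕ) × ℕ) × ℕ => 2 * q.2 := c_mul (c_const 2) y
    exact p_imp (p_lt x2 (hlen.comp l)) (p_imp (p_lt y2 (hlen.comp l))
      (p_iff (computablePred_comp (P := fun q : ℕ × ℕ × ℕ => B q.1 q.2.1 q.2.2) hB
        (c_pair i (c_pair x y)))
        (computablePred_comp (P := fun q : ℕ × ℕ × ℕ => C q.1 q.2.1 q.2.2) hC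
        (c_pair i (c_pair (c_gt l x2) (c_gt l y2))))))

theorem iso_of_branch {B C : Str} {F : ℕ → ℕ} (h : IsBranch (TI B C) F) :
    ∃ f : ℕ ≃ ℕ, IsIso B C f ∧ ∀ x, f x = F (2 * x) := by
  have hl : ∀ n, ((List.range n).map F).length = n := fun n => by
    rw [List.length_map, List.length_range]
  have h1 : ∀ x y, F (2 * x) = y ↔ F (2 * y + 1) = x := by
    intro x y
    have h2 := (h (2 * x + 2 * y + 2)).1 x (by rw [hl]; omega) y (by rw [hl]; omega)
      (by rw [hl]; omega) (by rw [hl]; omega)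
    rwa [gt_range F (by omega), gt_range F (by omega)] at h2
  have h3 : ∀ i x y, B i x y ↔ C i (F (2 * x)) (F (2 * y)) := by
    intro i x y
    have h2 := (h (i + 2 * x + 2 * y + 2)).2 i (by rw [hl]; omega) x (by rw [hl]; omega) y
      (by rw [hl]; omega) (by rw [hl]; omega) (by rw [hl]; omega)
    rwa [gt_range F (by omega), gt_range F (by omega)] at h2
  refine ⟨⟨fun x => F (2 * x), fun y => F (2 * y + 1), fun x => ?_, fun y => ?_⟩, ?_, ?_⟩
  · exact (h1 x _).1 rfl
  · exact (h1 _ y).2 rfl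
  · exact h3
  · exact fun _ => rfl

/-- the path of an isomorphism -/
def mk (f : ℕ ≃ ℕ) (z : ℕ) : ℕ := if z % 2 = 0 then f (z / 2) else f.symm (z / 2)

theorem mk_even (f : ℕ ≃ ℕ) (x : ℕ) : mk f (2 * x) = f x := by
  unfold mk
  rw [if_pos (by omega), show 2 * x / 2 = x by omega]

theorem mk_odd (f : ℕ ≃ ℕ) (x : ℕ) : mk f (2 * x + 1) = f.symm x := by
  unfold mk
  rw [if_neg (by omega), show (2 * x + 1) / 2 = x by omega]

theorem branch_of_iso {B C : Str} {f : ℕ ≃ ℕ} (h : IsIso B C f) : IsBranch (TI B C) (mk f) := by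
  intro n
  constructor
  · intro x hx y hy h1 h2
    simp only [List.length_map, List.length_range] at h1 h2
    rw [gt_range _ h1, gt_range _ h2, mk_even, mk_odd]
    constructor
    · rintro rfl
      exact f.symm_apply_apply x
    · rintro rfl
      exact f.apply_symm_apply y
  · intro i hi x hx y hy h1 h2
    simp only [List.length_map, List.length_range] at h1 h2
    rw [gt_range _ h1, gt_range _ h2, mk_even, mk_even]
    exact h i x y

section
variable {Γ : ∀ (α : Type) [Primcodable α], (α → Prop) → Prop}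

theorem PC.mkf (h : PC Γ) {f : ℕ ≃ ℕ} (hf : Γ _ (Gr f)) : Γ _ (Gr (HD.mk f)) := by
  have h1 : Γ (ℕ × ℕ) fun p => p.1 % 2 = 0 :=
    h.base (p_eq (c_mod2 (c_fst c_id)) (c_const 0))
  have h2 : Γ (ℕ × ℕ) fun p => ¬ p.1 % 2 = 0 :=
    h.base (p_not (p_eq (c_mod2 (c_fst c_id)) (c_const 0)))
  have h3 : Γ (ℕ × ℕ) fun p => Gr f (p.1 / 2, p.2) :=
    h.cp hf (c_pair (c_div2 (c_fst c_id)) (c_snd c_id))
  have h4 : Γ (ℕ × ℕ) fun p => Gr f (p.2, p.1 / 2) :=
    h.cp hf (c_pair (c_snd c_id) (c_div2 (c_fst c_id)))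
  refine h.iff (h.or (h.and h1 h3) (h.and h2 h4)) fun p => ?_
  show HD.mk f p.1 = p.2 ↔ (p.1 % 2 = 0 ∧ f (p.1 / 2) = p.2) ∨
    (¬ p.1 % 2 = 0 ∧ f p.2 = p.1 / 2)
  unfold HD.mk
  by_cases hp : p.1 % 2 = 0
  · simp [hp]
  · simp only [hp, if_false, false_and, not_false_iff, true_and, false_or]
    constructor
    · intro h5
      rw [← h5, f.apply_symm_apply]
    · intro h5
      rw [← h5, f.symm_apply_apply]

theorem PC.symm (h : PC Γ) {f : ℕ ≃ ℕ} (hf : Γ _ (Gr f)) : Γ _ (Gr f.symm) := by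
  refine h.iff (h.cp hf (f := fun p : ℕ × ℕ => (p.2, p.1)) (c_pair (c_snd c_id)
    (c_fst c_id))) fun p => ?_
  show f.symm p.1 = p.2 ↔ f p.2 = p.1
  constructor
  · intro h1
    rw [← h1, f.apply_symm_apply]
  · intro h1
    rw [← h1, f.symm_apply_apply]

theorem PC.sandwich (hΓ : PC Γ) {A B C D : Str} {m : ℕ ≃ ℕ} (hm : IsIso A B m)
    (hg : Γ _ (Gr m)) (h : CompIso A C) (k : CompIso B D) :
    ∃ f : ℕ ≃ ℕ, IsIso C D f ∧ Γ _ (Gr f) := by
  obtain ⟨h, hh, hhc⟩ := h
  obtain ⟨k, hk, hkc⟩ := k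
  refine ⟨(h.symm.trans m).trans k, (hh.symm.trans hm).trans hk, ?_⟩
  have h1 := hΓ.cp hg (f := fun p : ℕ × ℕ => (h.symm p.1, k.symm p.2))
    (c_pair ((computable_symm hhc).comp (c_fst c_id))
      ((computable_symm hkc).comp (c_snd c_id)))
  refine hΓ.iff h1 fun p => ?_
  show k (m (h.symm p.1)) = p.2 ↔ m (h.symm p.1) = k.symm p.2
  exact (Equiv.eq_symm_apply k).symm

theorem gauto_of_two (hΓ : PC Γ) {A B0 B1 : Str} (h0 : IsCopy A B0) (h1 : IsCopy A B1)
    (hcov : ∀ B, IsCopy A B → CompIso B0 B ∨ CompIso B1 B) :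
    GAuto Γ A ↔ ∃ f : ℕ ≃ ℕ, IsIso B0 B1 f ∧ Γ _ (Gr f) := by
  constructor
  · intro h
    exact h _ _ h0 h1
  · rintro ⟨f, hf, hg⟩ B C hB hC
    have hid : Γ _ (Gr (Equiv.refl ℕ)) := hΓ.base (p_eq (c_fst c_id) (c_snd c_id))
    rcases hcov B hB with b | b <;> rcases hcov C hC with c | c
    · exact hΓ.sandwich (m := Equiv.refl ℕ) (fun _ _ _ => Iff.rfl) hid b c
    · exact hΓ.sandwich hf hg b c
    · exact hΓ.sandwich hf.symm (hΓ.symm hg) b c
    · exact hΓ.sandwich (m := Equiv.refl ℕ) (fun _ _ _ => Iff.rfl) hid b c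

end

/-- every structure of dimension two has a tree -/
theorem exists_good {A : Str} (h : compDim A = 2) : ∃ T, GoodTree T ∧
    ∀ Γ : ∀ (α : Type) [Primcodable α], (α → Prop) → Prop, PC Γ →
      (GAuto Γ A ↔ ∃ F, IsBranch T F ∧ Γ _ (Gr F)) := by
  unfold compDim at h
  obtain ⟨x, y, hxy, hcov⟩ := Cardinal.mk_eq_two_iff.1 h
  obtain ⟨⟨B0, h0⟩, rfl⟩ := Quotient.exists_rep x
  obtain ⟨⟨B1, h1⟩, rfl⟩ := Quotient.exists_rep y
  have hne : ¬ CompIso B0 B1 := fun hc => hxy (Quotient.sound hc)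
  have hcov' : ∀ B, IsCopy A B → CompIso B0 B ∨ CompIso B1 B := by
    intro B hB
    have h2 : (Quotient.mk (copySetoid A) ⟨B, hB⟩) ∈ (Set.univ : Set (Quotient (copySetoid A))) :=
      Set.mem_univ _
    rw [← hcov] at h2
    rcases h2 with h2 | h2
    · exact Or.inl (CompIso.symm (Quotient.exact h2))
    · exact Or.inr (CompIso.symm (Quotient.exact h2))
  obtain ⟨f0, hf0⟩ : ∃ f : ℕ ≃ ℕ, IsIso B0 B1 f := by
    obtain ⟨_, f, hf⟩ := h0
    obtain ⟨_, g, hg⟩ := h1
    exact ⟨f.symm.trans g, hf.symm.trans hg⟩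
  refine ⟨TI B0 B1, ⟨p_TI h0.1 h1.1, fun l m hl => ti_take m hl, ⟨_, branch_of_iso hf0⟩, ?_⟩, ?_⟩
  · intro F hF hc
    obtain ⟨f, hf, hfF⟩ := iso_of_branch hF
    refine hne ⟨f, hf, ?_⟩
    exact (hc.comp (c_mul (c_const 2) c_id)).of_eq fun x => (hfF x).symm
  · intro Γ hΓ
    rw [gauto_of_two hΓ h0 h1 hcov']
    constructor
    · rintro ⟨f, hf, hg⟩
      exact ⟨_, branch_of_iso hf, hΓ.mkf hg⟩
    · rintro ⟨F, hF, hg⟩
      obtain ⟨f, hf, hfF⟩ := iso_of_branch hF
      refine ⟨f, hf, ?_⟩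
      refine hΓ.iff (hΓ.cp hg (f := fun p : ℕ × ℕ => (2 * p.1, p.2)) (c_pair
        (c_mul (c_const 2) (c_fst c_id)) (c_snd c_id))) fun p => ?_
      show f p.1 = p.2 ↔ F (2 * p.1) = p.2
      rw [hfF]

/-! ### trees of prescribed levels -/

theorem tt_nod (K : ℕ) (g : ℕ → ℕ) (n : ℕ) : TT K (nod g n) ↔ ∀ i < n, Loc K g n i := by
  unfold TT
  rw [len_nod]
  constructor
  · intro h i hi
    exact (h i hi).mono (le_refl n) (fun x hx => dig_nod g hx) hi
  · intro h i hi
    exact (h i hi).mono (le_refl n) (fun x hx => (dig_nod g hx).symm) hi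

/-- the tree of level `K` on finite sequences -/
def TK (K : ℕ) (l : List ℕ) : Prop := TT K (nod (gt l) l.length)

theorem tk_branch (K : ℕ) (F : ℕ → ℕ) : IsBranch (TK K) F ↔ ∀ n, TT K (nod F n) := by
  refine forall_congr' fun n => ?_
  unfold TK
  rw [List.length_map, List.length_range]
  have : nod (gt ((List.range n).map F)) n = nod F n := by
    unfold nod
    congr 2
    exact List.map_congr_left fun i hi => gt_range F (List.mem_range.1 hi)
  rw [this]

theorem tk_take {K : ℕ} {l : List ℕ} (m : ℕ) (h : TK K l) : TK K (l.take m) := by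
  unfold TK at h ⊢
  rw [tt_nod] at h ⊢
  have hl : (l.take m).length = min m l.length := List.length_take
  intro i hi
  refine (h i (by omega)).mono (by omega) (fun x hx => ?_) hi
  rw [gt_take (by omega)]

theorem p_TK (K : ℕ) : ComputablePred (TK K) := by
  refine computablePred_comp (p_TT K) ?_
  show Computable fun l : List ℕ => encode ((List.range l.length).map (gt l)).reverse
  exact Computable.encode.comp (Primrec.list_reverse.to_comp.comp
    (c_tab Computable.list_length (c_gt (c_fst c_id) (c_snd c_id))))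

theorem pth_branch (K : ℕ) : IsBranch (TK K) (pth K) := (tk_branch K _).2 (pth_T K)

theorem branch_unique {K : ℕ} {F : ℕ → ℕ} (h : IsBranch (TK K) F) : F = pth K := by
  rw [tk_branch] at h
  funext i
  exact pth_unique (fun l i hi => (tt_nod K F l).1 (h l) i hi) i

theorem pth_not (K : ℕ) : ¬ Sigma0 (K + 1) (Gr (pth K)) := by
  intro h
  refine not_sigma_onP K ((pc_sigma K).iff ((pc_sigma K).onF h) fun j => ?_)
  constructor
  · intro h1
    unfold OnP at h1
    rw [h1]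
    exact onF_nod _ _
  · intro h1
    exact nod_ext h1

theorem pth_yes (K : ℕ) : Sigma0 (K + 2) (Gr (pth K)) := (pi_pth K).toSigma

theorem good_TK (K : ℕ) : GoodTree (TK K) where
  comp := p_TK K
  tree := fun _ m h => tk_take m h
  path := ⟨_, pth_branch K⟩
  noncomp := by
    intro F hF hc
    rw [branch_unique hF] at hc
    exact pth_not K (ComputablePred.sigma (p_eq (hc.comp (c_fst c_id)) (c_snd c_id)))

theorem exists_good_hyp : ∃ T, GoodTree T ∧ ∀ F, IsBranch T F → ¬ HypFun F := by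
  obtain ⟨T, hT, hcl, ⟨F, hF⟩, hn⟩ := exists_tree
  refine ⟨T, ⟨hT, fun l m hl => ?_, ⟨F, hF⟩, fun F hF hc => hn F hF ?_⟩, hn⟩
  · by_cases hm : m ≤ l.length
    · have h1 : tk l m = l.take m := by
        refine List.ext_getElem ?_ fun i h1 h2 => ?_
        · rw [tk_length, List.length_take]; omega
        · rw [tk_length] at h1
          have h3 := gt_tk (l := l) h1
          unfold gt at h3
          rw [List.getElem?_eq_getElem (by rw [tk_length]; exact h1),
            List.getElem?_eq_getElem (by omega)] at h3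
          rw [List.getElem_take]
          simpa using h3
      rw [← h1]
      exact hcl l m hm hl
    · rw [List.take_of_length_le (by omega)]
      exact hl
  · exact Delta11.of_computable (p_eq (hc.comp (c_fst c_id)) (c_snd c_id))

/-! ### the main theorem -/

theorem main (T : List ℕ → Prop) (hT : GoodTree T) : ∃ A : Str, IsComp A ∧ compDim A = 2 ∧
    (∀ X, AutostableIn X A → ∃ F, IsBranch T F ∧ CompIn X F) ∧
    (∀ X, AboveDoubleJump X → (AutostableIn X A ↔ ∃ F, IsBranch T F ∧ CompIn X F)) ∧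
    (∀ X, IsBranch T X → (∀ F, IsBranch T F → F = X) → AboveDoubleJump X →
      ∀ Y, AutostableIn Y A ↔ CompIn Y X) ∧
    (∀ n, 3 ≤ n → (DeltaAutostable n A ↔ ∃ F, IsBranch T F ∧ DeltaFun n F)) ∧
    (HypAutostable A ↔ ∃ F, IsBranch T F ∧ HypFun F) := by
  have hcl : Cl T := cl_of_take hT.tree
  have hp : ∃ F : ℕ → ℕ, ∀ n, T (rs F n) := hT.path
  have hdim : compDim (ST T false) = 2 := dim_two hT.comp hcl hp hT.noncomp
  have key : ∀ X, AutostableIn X (ST T false) → ∃ F, IsBranch T F ∧ CompIn X F := by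
    intro X hX
    obtain ⟨F0, hF0⟩ := hp
    obtain ⟨f, hf, hg⟩ := hX _ _ (st_copy hT.comp hcl hF0 false) (st_copy hT.comp hcl hF0 true)
    exact (pc_ce X).path_of_iso (con_spec (LT T) prn) (th_LT hcl (nil_of hF0))
      (con_pa (p_LT hT.comp) c_prn) (con_J (p_LT hT.comp) c_prn c_id) hf hg
  have key' : ∀ X, AboveDoubleJump X → (AutostableIn X (ST T false) ↔
      ∃ F, IsBranch T F ∧ CompIn X F) := fun X hX =>
    gauto_iff (pc_ce X) (low_ce hX) hT.comp hcl hp
  refine ⟨ST T false, st_comp hT.comp false, hdim, key, key', ?_, ?_, ?_⟩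
  · intro X hX huniq hj Y
    constructor
    · intro h
      obtain ⟨F, hF, hg⟩ := key Y h
      rwa [huniq F hF] at hg
    · intro h
      exact (key' Y fun P hP => ⟨ce_trans h (hj P hP).1, ce_trans h (hj P hP).2⟩).2 ⟨X, hX, h⟩
  · intro n hn
    obtain ⟨m, rfl⟩ : ∃ m, n = m + 1 := ⟨n - 1, by omega⟩
    have h := gauto_iff (pc_sigma m) (low_sigma (by omega)) hT.comp hcl hp
    constructor
    · intro h1
      obtain ⟨F, hF, hg⟩ := h.1 fun B C hB hC => by
        obtain ⟨f, hf, hg⟩ := h1 B C hB hC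
        exact ⟨f, hf, gr_sigma_iff.1 hg⟩
      exact ⟨F, hF, gr_sigma_iff.2 hg⟩
    · rintro ⟨F, hF, hg⟩ B C hB hC
      obtain ⟨f, hf, hg⟩ := h.2 ⟨F, hF, gr_sigma_iff.1 hg⟩ B C hB hC
      exact ⟨f, hf, gr_sigma_iff.2 hg⟩
  · have h := gauto_iff pc_sig11 low_sig11 hT.comp hcl hp
    constructor
    · intro h1
      obtain ⟨F, hF, hg⟩ := h.1 fun B C hB hC => by
        obtain ⟨f, hf, hg⟩ := h1 B C hB hC
        exact ⟨f, hf, gr_hyp_iff.1 hg⟩
      exact ⟨F, hF, gr_hyp_iff.2 hg⟩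
    · rintro ⟨F, hF, hg⟩ B C hB hC
      obtain ⟨f, hf, hg⟩ := h.2 ⟨F, hF, gr_hyp_iff.1 hg⟩ B C hB hC
      exact ⟨f, hf, gr_hyp_iff.2 hg⟩

theorem upper (A : Str) (h : compDim A = 2) : ∃ T, GoodTree T ∧
    ∀ X, AutostableIn X A ↔ ∃ F, IsBranch T F ∧ CompIn X F := by
  obtain ⟨T, hT, h1⟩ := exists_good h
  exact ⟨T, hT, fun X => h1 _ (pc_ce X)⟩

theorem levels (n : ℕ) (hn : 3 ≤ n) : ∃ A : Str, IsComp A ∧ compDim A = 2 ∧
    DeltaAutostable (n + 1) A ∧ ¬ DeltaAutostable n A := by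
  obtain ⟨A, h1, h2, _, _, _, h3, _⟩ := main (TK (n - 1)) (good_TK (n - 1))
  refine ⟨A, h1, h2, (h3 (n + 1) (by omega)).2 ⟨_, pth_branch _, ?_⟩, fun h => ?_⟩
  · refine gr_sigma_iff.2 ?_
    have := pth_yes (n - 1)
    rwa [show n - 1 + 2 = n + 1 by omega] at this
  · obtain ⟨F, hF, hg⟩ := (h3 n hn).1 h
    rw [branch_unique hF] at hg
    obtain ⟨m, rfl⟩ : ∃ m, n = m + 1 := ⟨n - 1, by omega⟩
    exact pth_not m (gr_sigma_iff.1 hg)

theorem no_hyp_two : ∃ A : Str, IsComp A ∧ compDim A = 2 ∧ ¬ HypAutostable A := by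
  obtain ⟨T, hT, hn⟩ := exists_good_hyp
  obtain ⟨A, h1, h2, _, _, _, _, h3⟩ := main T hT
  refine ⟨A, h1, h2, fun h => ?_⟩
  obtain ⟨F, hF, hg⟩ := h3.1 h
  exact hn F hF hg

end Pool.Agent.Y670.HD
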